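import Pool.Agent.H35.Q51.C2

/-!
# The supercongruence modulo `p ^ 2` for `∑ binom(2k,k)^2 binom(3k,k) / (-12^3)^k`

For every prime `p > 3` the sum `T(p) = ∑_{k<p} binom(2k,k)^2 binom(3k,k) / (-1728)^k` is congruent
modulo `p ^ 2` to

* `x ^ 2 - 2 p`, if `(p/3) = (p/17) = 1` and `4 p = x ^ 2 + 51 y ^ 2`;
* `2 p - 3 x ^ 2`, if `(p/3) = (p/17) = -1` and `4 p = 3 x ^ 2 + 17 y ^ 2`;
* `0`, if `(p/3) = -(p/17)`.

Method. With `c = (4 ± √17) / 216` one has `c (1 - 27 c) = -1 / 1728`, and a truncated Clausen formula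
reduces the claim to the square of `∑_{k<p} binom(2k,k) binom(3k,k) c ^ k`. The elliptic curves
`y ^ 2 = x ^ 3 + (6 x + 16 ± 4 √17) ^ 2` have complex multiplication by the maximal order of
`ℚ(√-51)`, of class number two. Explicit isogenies of degrees `3` and `5` between the two curves
generate the module of isogenies; in the case `(p/3) = (p/17) = -1` one finds an isogeny of degree `p`
between the two conjugate curves over the ring `ℤ_p[√-3]`, which is the quadratic unramified extension
of `ℤ_p`, and in the case `(p/3) = (p/17) = 1` an endomorphism of degree `p` of the curve over `ℤ_p`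
(from explicit endomorphisms of degrees `13` and `15`). Comparing the expansions of the invariant
differentials at a point of order three, at the indices `p - 1` and `2 p - 1`, gives the
truncated sum modulo `p ^ 2`. In the last case the isogenies of degree `5` show that the truncated
sum is divisible by `p`.
-/

set_option autoImplicit false

namespace Pool.Agent.Results.MP_18afd0_nt.QTwoFull

open Pool.Agent.H35.Q51

/-- The sum `T(p)`. -/
def T (p : ℕ) : ℚ :=
  ∑ k ∈ Finset.range p, ((Nat.choose (2 * k) k : ℚ) ^ 2 * (Nat.choose (3 * k) k : ℚ)) /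
    (-12 ^ 3 : ℚ) ^ k

/-- `r ≡ s` modulo `p ^ 2`: the rational number `(r - s) / p ^ 2` has denominator prime to `p`. -/
def CongrSq (p : ℕ) (r s : ℚ) : Prop := ((r - s) / (p : ℚ) ^ 2).den.Coprime p

theorem congr_of_cg {p : ℕ} (hp : p.Prime) {r s : ℚ} (h : Pool.Agent.H475R2.Cg p r s) :
    CongrSq p r s := by
  obtain ⟨q, hq, hd⟩ := h
  have hp0 : (p : ℚ) ^ 2 ≠ 0 := pow_ne_zero 2 (by exact_mod_cast hp.ne_zero)
  unfold CongrSq
  rw [hq, mul_div_cancel_left₀ _ hp0]
  exact (Nat.Coprime.symm ((Nat.Prime.coprime_iff_not_dvd hp).2 hd))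

theorem T_eq (p : ℕ) : T p = ∑ k ∈ Finset.range p, ((Pool.Agent.H475R2.u3 k : ℤ) : ℚ) /
    ((-1728 : ℤ) : ℚ) ^ k := by
  unfold T Pool.Agent.H475R2.u3
  apply Finset.sum_congr rfl
  intro k _
  push_cast
  norm_num

theorem main {p : ℕ} (hp : p.Prime) (h3 : 3 < p) {tgt : ℤ}
    (h : ∀ [Fact p.Prime] (mi : ℤ_[p]), -1728 * mi = 1 → (p : ℤ_[p]) ^ 2 ∣
      (∑ k ∈ Finset.range p, ((Pool.Agent.H475R2.u3 k : ℤ) : ℤ_[p]) * mi ^ k) - (tgt : ℤ_[p])) :
    CongrSq p (T p) tgt := by
  have hF : Fact p.Prime := ⟨hp⟩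
  have hm : ¬ (p : ℤ) ∣ -1728 := by
    intro hd
    have h1 : p ∣ 1728 := by
      have := (dvd_neg (a := (p : ℤ)) (b := 1728)).1 hd
      exact_mod_cast this
    rw [show 1728 = 2 ^ 6 * 3 ^ 3 by norm_num] at h1
    rcases (Nat.Prime.dvd_mul hp).1 h1 with h2 | h2
    · have := Nat.le_of_dvd (by norm_num) (hp.dvd_of_dvd_pow h2); omega
    · have := Nat.le_of_dvd (by norm_num) (hp.dvd_of_dvd_pow h2); omega
  obtain ⟨mi, hmi⟩ := (Pool.Agent.H475R2.isUnit_intCast hm).exists_right_inv
  apply congr_of_cg hp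
  rw [T_eq]
  apply Pool.Agent.H475R2.to_rat hm hmi
  apply h mi
  push_cast at hmi
  exact hmi

theorem mod3 {p : ℕ} (hp : p.Prime) (h3 : 3 < p) :
    (p % 3 = 1 ∧ jacobiSym p 3 = 1) ∨ (p % 3 = 2 ∧ jacobiSym p 3 = -1) := by
  have h0 : p % 3 ≠ 0 := by
    intro h
    have := (Nat.prime_dvd_prime_iff_eq Nat.prime_three hp).1 (Nat.dvd_of_mod_eq_zero h)
    omega
  have h1 : p % 3 = 1 ∨ p % 3 = 2 := by omega
  rcases h1 with h | h
  · left
    refine ⟨h, ?_⟩
    rw [jacobiSym.mod_left, show ((p : ℤ) % ((3 : ℕ) : ℤ)) = 1 by omega]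
    norm_num
  · right
    refine ⟨h, ?_⟩
    rw [jacobiSym.mod_left, show ((p : ℤ) % ((3 : ℕ) : ℤ)) = 2 by omega]
    norm_num

/-- The answer to the second question, for all primes `p > 3`. -/
theorem result (p : ℕ) (hp : p.Prime) (h3 : 3 < p) :
    (jacobiSym p 3 = 1 → jacobiSym p 17 = 1 → ∀ x y : ℤ, 4 * (p : ℤ) = x ^ 2 + 51 * y ^ 2 →
      CongrSq p (T p) ((x ^ 2 - 2 * p : ℤ) : ℚ)) ∧
    (jacobiSym p 3 = -1 → jacobiSym p 17 = -1 → ∀ x y : ℤ, 4 * (p : ℤ) = 3 * x ^ 2 + 17 * y ^ 2 →
      CongrSq p (T p) ((2 * p - 3 * x ^ 2 : ℤ) : ℚ)) ∧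
    (jacobiSym p 3 = -jacobiSym p 17 → CongrSq p (T p) 0) := by
  have hp5 : 5 ≤ p := by
    have h4 : p ≠ 4 := by rintro rfl; norm_num at hp
    omega
  refine ⟨?_, ?_, ?_⟩
  · intro j3 _ x y hxy
    have hm : p % 3 = 1 := by
      rcases mod3 hp h3 with h | h
      · exact h.1
      · rw [h.2] at j3; norm_num at j3
    exact main hp h3 (fun {hF} mi hmi => caseA hp5 hm hxy hmi)
  · intro j3 j17 x y hxy
    have hm : p % 3 = 2 := by
      rcases mod3 hp h3 with h | h
      · rw [h.2] at j3; norm_num at j3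
      · exact h.1
    have h17 : p ≠ 17 := by
      rintro rfl
      norm_num at j17
    exact main hp h3 (fun {hF} mi hmi => caseB hp5 h17 hm hxy hmi)
  · intro hj
    have hF : Fact p.Prime := ⟨hp⟩
    have hq : jacobiSym (17 : ℕ) p = jacobiSym (p : ℕ) 17 :=
      jacobiSym.quadratic_reciprocity_one_mod_four (by norm_num) (hp.odd_of_ne_two (by omega))
    have hl : legendreSym p (-51) = -1 := by
      have e1 : (-51 : ℤ) = -3 * 17 := by norm_num
      rw [e1, legendreSym.mul]
      have e2 : legendreSym p 17 = jacobiSym (p : ℕ) 17 := by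
        rw [← hq, jacobiSym.legendreSym.to_jacobiSym]
        rfl
      rw [e2]
      rcases mod3 hp h3 with h | h
      · have e3 : legendreSym p (-3) = 1 := by
          obtain ⟨a, ha⟩ := exists_neg3 hp5 h.1
          rw [legendreSym.eq_one_iff]
          · refine ⟨(a : ZMod p), ?_⟩
            have := (ZMod.intCast_zmod_eq_zero_iff_dvd _ _).2 ha
            push_cast at this ⊢
            linear_combination -this
          · push_cast
            intro h0
            have h1 := Pool.Agent.H475R2.nat_ne (p := p) (K := ZMod p) (m := 3) (by norm_num) h3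
            apply h1
            push_cast
            linear_combination -h0
        rw [h.2] at hj
        rw [e3]
        have : jacobiSym (p : ℕ) 17 = -1 := by omega
        rw [this]; norm_num
      · have e3 : legendreSym p (-3) = -1 := by
          rw [legendreSym.eq_neg_one_iff]
          rintro ⟨r, hr⟩
          apply neg3_nonsq hp5 h.1 r
          push_cast at hr
          rw [hr]; ring
        rw [h.2] at hj
        rw [e3]
        have : jacobiSym (p : ℕ) 17 = 1 := by omega
        rw [this]; norm_num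
    have key := main hp h3 (tgt := 0) (fun {hF} mi hmi => by
      rw [Int.cast_zero, sub_zero]
      exact inert hp5 hl hmi)
    rw [Int.cast_zero] at key
    exact key

end Pool.Agent.Results.MP_18afd0_nt.QTwoFull
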